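import Pool.Agent.H22.RCR.Base

/-!
# Project RCR, modules A10 and A12
-/

namespace Pool.Agent.H3.RCR.A10

open Pool.Agent.H3.RCR Relation B22

/-- a side of a nonfacial 3-cycle has an inner vertex -/
theorem inner (h0 : A0Stmt) {F S : Finset Tri} (hF : Sph F) {a b c : ℕ} (hS : Side3 F a b c S)
    (hn : (a, b, c) ∉ F) : ∃ v ∈ verts S, v ≠ a ∧ v ≠ b ∧ v ≠ c := by
  by_contra hcon
  push Not at hcon
  have h := ((h0.2 F a b c hF).2 S hS).2.2.2.2.2.2.2.2.2.2
  have hE := h (fun v hv => by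
    by_cases h1 : v = a
    · exact Or.inl h1
    · by_cases h2 : v = b
      · exact Or.inr (Or.inl h2)
      · exact Or.inr (Or.inr (hcon v hv h1 h2)))
  apply hn
  apply hS.sub
  rw [hE]
  exact self_mem_rots _

theorem a10 (h0 : A0Stmt) (h9 : A9Stmt) (h21 : A21Stmt) : A10Stmt := by
  suffices H : ∀ n : ℕ, ∀ (F : Finset Tri) (a b c : ℕ) (S : Finset Tri), S.card < n → Sph F →
      Side3 F a b c S → (∃ v ∈ verts S, v ≠ a ∧ v ≠ b ∧ v ≠ c) →
      ∃ v ∈ verts S, v ≠ a ∧ v ≠ b ∧ v ≠ c ∧ ∃ x, Ok F v x by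
    intro F a b c S hF hS hv
    exact H (S.card + 1) F a b c S (Nat.lt_succ_self _) hF hS hv
  intro n
  induction n with
  | zero => intro F a b c S h; exact absurd h (Nat.not_lt_zero _)
  | succ n ih =>
    intro F a b c S hn hF hS hv
    obtain ⟨v, hv, hva, hvb, hvc⟩ := hv
    obtain ⟨x, q, hxq⟩ := mem_verts.1 hv
    have hvx : Adj F v x := ⟨q, hS.sub hxq⟩
    by_cases hok : Ok F v x
    · exact ⟨v, hv, hva, hvb, hvc, x, hok⟩
    have h4 := four hF.toPre hS.ab hS.bc hS.ca (verts_mono hS.sub hv) hva hvb hvc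
    obtain ⟨w, hxw, hwv, hn1, hn2⟩ := not_ok h21 hF h4 hvx hok
    obtain ⟨R, hRS, hR⟩ := h9 F a b c S hF hS v x w hv hva hvb hvc hvx hxw hwv
    have hcard : R.card < n := lt_of_lt_of_le (Finset.card_lt_card hRS) (Nat.lt_succ_iff.1 hn)
    have hn3 : (v, w, x) ∉ F := fun h => hn2 (hF.toPre.rot2 h)
    -- the fact on inner vertices
    have key : ∀ v' ∈ verts R, (∀ p q, (v', p, q) ∈ F → (v', p, q) ∈ R) →
        v' ≠ a ∧ v' ≠ b ∧ v' ≠ c := by
      intro v' hv' hall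
      obtain ⟨-, -, -, -, -, -, -, ka, kb, kc, -⟩ := (h0.2 F a b c hF).2 S hS
      have hx : ∀ y, y ∈ verts (F \ S) → v' ≠ y := by
        rintro y hy rfl
        obtain ⟨p, q, hpq⟩ := mem_verts.1 hy
        rw [Finset.mem_sdiff] at hpq
        exact hpq.2 (hRS.1 (hall p q hpq.1))
      exact ⟨hx a ka, hx b kb, hx c kc⟩
    rcases hR with hR | hR
    · obtain ⟨v', hv', h1, h2, h3, y, hy⟩ := ih F v x w R hcard hF hR (inner h0 hF hR hn1)
      obtain ⟨k1, k2, k3⟩ := key v' hv' (((h0.2 F v x w hF).2 R hR).2.2.2.1 v' hv' h1 h2 h3)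
      exact ⟨v', verts_mono hRS.1 hv', k1, k2, k3, y, hy⟩
    · obtain ⟨v', hv', h1, h2, h3, y, hy⟩ := ih F v w x R hcard hF hR (inner h0 hF hR hn3)
      obtain ⟨k1, k2, k3⟩ := key v' hv' (((h0.2 F v w x hF).2 R hR).2.2.2.1 v' hv' h1 h2 h3)
      exact ⟨v', verts_mono hRS.1 hv', k1, k2, k3, y, hy⟩

theorem a12 (h0 : A0Stmt) (h9 : A9Stmt) (h21 : A21Stmt) : A12Stmt := by
  intro F hF h4 v hv
  by_contra hcon
  push Not at hcon
  -- a nonfacial 3-cycle through `v` with a side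
  have main : ∀ n : ℕ, ∀ (x y : ℕ) (R : Finset Tri), R.card < n → Side3 F v x y R →
      (v, x, y) ∉ F → False := by
    intro n
    induction n with
    | zero => intro x y R h; exact absurd h (Nat.not_lt_zero _)
    | succ n ih =>
      intro x y R hn hR hnf
      have hj := (hR.jump v x).2 (Or.inl ⟨rfl, rfl⟩)
      obtain ⟨⟨z, hz⟩, -⟩ := hj
      have hzF := hR.sub hz
      have hnd := hF.toPre.nd hzF
      have hzy : z ≠ y := fun e => hnf (e ▸ hzF)
      have hzv : Adj F z v := ⟨x, hF.toPre.rot2 hzF⟩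
      have hvz : Adj F v z := hF.toPre.adj_symm hzv
      have hzR : z ∈ verts R := mem_verts.2 ⟨v, x, hR.rot _ _ _ (hR.rot _ _ _ hz)⟩
      obtain ⟨w, hzw, hwv, hn1, hn2⟩ := not_ok h21 hF h4 hvz (hcon z)
      obtain ⟨R', hRR, hR'⟩ := h9 F v x y R hF hR z v w hzR hnd.2.2 (fun e => hnd.2.1 e.symm) hzy
        hzv (hF.toPre.adj_symm hwv) (hF.toPre.adj_symm hzw)
      have hcard : R'.card < n := lt_of_lt_of_le (Finset.card_lt_card hRR) (Nat.lt_succ_iff.1 hn)
      rcases hR' with hR' | hR'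
      · have hr := ((h0.2 F z v w hF).2 R' hR').1
        exact ih w z R' hcard hr (fun h => hn2 (hF.toPre.rot2 h))
      · have hr := ((h0.2 F z w v hF).2 R' hR').1
        have hr' := ((h0.2 F w v z hF).2 R' hr).1
        exact ih z w R' hcard hr' hn1
  obtain ⟨x, q, hxq⟩ := mem_verts.1 hv
  have hvx : Adj F v x := ⟨q, hxq⟩
  obtain ⟨w, hxw, hwv, hn1, hn2⟩ := not_ok h21 hF h4 hvx (hcon x)
  obtain ⟨R, hR⟩ := (h0.2 F v x w hF).1 hvx hxw hwv
  exact main _ x w R (Nat.lt_succ_self _) hR hn1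

end Pool.Agent.H3.RCR.A10
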