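import Pool.Agent.H22.RCR.Base

/-!
# Project RCR, module A11
-/

namespace Pool.Agent.H3.RCR.A11

open Pool.Agent.H3.RCR Relation B22

theorem nd_rot {a b c : ℕ} (h : Nd (a, b, c)) : Nd (b, c, a) := ⟨h.2.1, h.2.2, h.1⟩

/-- two faces with the same nondegenerate image under a contraction are equal -/
theorem inj {F : Finset Tri} (hF : Pre F) {u v : ℕ} {s t : Tri} (hs : s ∈ F) (ht : t ∈ F)
    (he : mapT (sub1 u v) s = mapT (sub1 u v) t) (hn : Nd (mapT (sub1 u v) s)) : s = t := by
  obtain ⟨a, b, c⟩ := s
  obtain ⟨a', b', c'⟩ := t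
  simp only [mapT, Prod.mk.injEq] at he
  simp only [Nd, mapT] at hn
  obtain ⟨ha, hb, hc⟩ := he
  obtain ⟨n1, n2, n3⟩ := hn
  -- at most one corner is moved
  have hcase : ∀ {x y : ℕ}, sub1 u v x = sub1 u v y → x ≠ y → sub1 u v x = v := by
    intro x y hxy hne
    by_cases hx : x = u
    · subst hx; exact sub1_self _ _
    · by_cases hy : y = u
      · subst hy; rw [hxy]; exact sub1_self _ _
      · rw [sub1_ne hx, sub1_ne hy] at hxy
        exact absurd hxy hne
  by_cases ea : a = a'
  · subst ea
    by_cases eb : b = b'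
    · subst eb
      have := hF.uniq _ _ _ _ hs ht
      rw [this]
    · -- b differs
      have hbv := hcase hb eb
      have ec : c = c' := by
        by_contra hne
        exact n2 (hbv.trans (hcase hc hne).symm)
      subst ec
      exact absurd (hF.uniq _ _ _ _ (hF.rot2 hs) (hF.rot2 ht)) eb
  · have hav := hcase ha ea
    have eb : b = b' := by
      by_contra hne
      exact n1 (hav.trans (hcase hb hne).symm)
    have ec : c = c' := by
      by_contra hne
      exact n3 ((hcase hc hne).trans hav.symm)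
    subst eb; subst ec
    exact absurd (hF.uniq' hs ht) ea

theorem red_mono {U V U' V' : Set ℕ} (hU : U ⊆ U') (hV : V ⊆ V') {F G : Finset Tri}
    (h : Red U V F G) : Red U' V' F G := by
  induction h with
  | refl => exact ReflTransGen.refl
  | tail _ h' ih =>
    obtain ⟨u, v, hu, hv, hok, he⟩ := h'
    exact ih.tail ⟨u, v, hU hu, hV hv, hok, he⟩

theorem a11 (h1 : A1Stmt) (h2 : A2Stmt) (h0 : A0Stmt) (h10 : A10Stmt) : A11Stmt := by
  suffices H : ∀ n : ℕ, ∀ (F : Finset Tri) (a b c : ℕ) (S : Finset Tri), (verts F).card < n →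
      Sph F → Side3 F a b c S →
      Red {v | v ∈ verts S ∧ v ≠ a ∧ v ≠ b ∧ v ≠ c} {v | v ∈ verts S} F
        ((F \ S) ∪ rots (a, b, c)) by
    intro F a b c S hF hS
    exact H _ F a b c S (Nat.lt_succ_self _) hF hS
  intro n
  induction n with
  | zero => intro F a b c S h; exact absurd h (Nat.not_lt_zero _)
  | succ n ih =>
    intro F a b c S hn hF hS
    by_cases hin : ∃ v ∈ verts S, v ≠ a ∧ v ≠ b ∧ v ≠ c
    · obtain ⟨v, hv, hva, hvb, hvc, x, hok⟩ := h10 F a b c S hF hS hin
      obtain ⟨-, -, kD, kin, -⟩ := (h0.2 F a b c hF).2 S hS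
      have kv := kin v hv hva hvb hvc
      obtain ⟨b1, b2, b3, b4, b5, b6, b7, b8⟩ := h1 F v x hF.toPre hok
      have hF' := h2 F v x hF hok
      have hvx : v ≠ x := hF.toPre.adj_ne hok.adj
      have hxS : x ∈ verts S := by
        obtain ⟨d, hd⟩ := hok.adj
        exact mem_verts.2 ⟨d, v, hS.rot _ _ _ (kv _ _ hd)⟩
      -- faces outside `S` do not contain `v`
      have hout : ∀ t ∈ F \ S, ¬ isV v t := by
        rintro ⟨p, q, r⟩ ht hvt
        rw [Finset.mem_sdiff] at ht
        simp only [isV] at hvt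
        rcases hvt with e | e | e
        · rw [e] at kv
          exact ht.2 (kv _ _ ht.1)
        · rw [e] at kv
          exact ht.2 (hS.rot _ _ _ (hS.rot _ _ _ (kv _ _ (hF.rot _ _ _ ht.1))))
        · rw [e] at kv
          exact ht.2 (hS.rot _ _ _ (kv _ _ (hF.toPre.rot2 ht.1)))
      set S' := contr S v x with hS'
      have hsub : S' ⊆ contr F v x := by
        intro t ht
        rw [hS', contr, mem_quo] at ht
        rw [contr, mem_quo]
        obtain ⟨hnd, s, hs, rfl⟩ := ht
        exact ⟨hnd, s, hS.sub hs, rfl⟩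
      have hfix : ∀ t ∈ F \ S, mapT (sub1 v x) t = t := by
        rintro ⟨p, q, r⟩ ht
        have h := hout _ ht
        simp only [isV, not_or] at h
        simp only [mapT]
        rw [sub1_ne (fun e => h.1 e.symm), sub1_ne (fun e => h.2.1 e.symm),
          sub1_ne (fun e => h.2.2 e.symm)]
      have hdisj : ∀ t ∈ F \ S, t ∉ S' := by
        intro t ht htS
        rw [hS', contr, mem_quo] at htS
        obtain ⟨hnd, s, hs, hst⟩ := htS
        have hft := hfix t ht
        have := inj hF.toPre (hS.sub hs) (Finset.mem_sdiff.1 ht).1 (hst.trans hft.symm)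
          (by rw [hst]; exact hnd)
        rw [← this] at ht
        exact (Finset.mem_sdiff.1 ht).2 hs
      have hdiff : contr F v x \ S' = F \ S := by
        ext t
        constructor
        · intro ht
          rw [Finset.mem_sdiff] at ht
          obtain ⟨ht1, ht2⟩ := ht
          rw [contr, mem_quo] at ht1
          obtain ⟨hnd, s, hs, hst⟩ := ht1
          by_cases hsS : s ∈ S
          · exfalso
            apply ht2
            rw [hS', contr, mem_quo]
            exact ⟨hnd, s, hsS, hst⟩
          · have hs' : s ∈ F \ S := Finset.mem_sdiff.2 ⟨hs, hsS⟩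
            rw [hfix s hs'] at hst
            rw [← hst]; exact hs'
        · intro ht
          rw [Finset.mem_sdiff]
          exact ⟨b6 t (Finset.mem_sdiff.1 ht).1 (hout t ht), hdisj t ht⟩
      have hadj : ∀ {p q : ℕ}, Adj F p q → p ≠ v → q ≠ v → Adj (contr F v x) p q := by
        intro p q hpq hp hq
        rw [b4]
        exact ⟨hF.toPre.adj_ne hpq, p, q, hpq, sub1_ne hp, sub1_ne hq⟩
      have hrotS' : RotC S' := by
        intro p q r h
        rw [hS', contr, mem_quo] at h ⊢
        obtain ⟨hnd, ⟨p', q', r'⟩, hs, hst⟩ := h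
        refine ⟨nd_rot hnd, (q', r', p'), hS.rot _ _ _ hs, ?_⟩
        simp only [mapT, Prod.mk.injEq] at hst ⊢
        exact ⟨hst.2.1, hst.2.2, hst.1⟩
      have hSide : Side3 (contr F v x) a b c S' := by
        refine ⟨hadj hS.ab hva.symm hvb.symm, hadj hS.bc hvb.symm hvc.symm,
          hadj hS.ca hvc.symm hva.symm, hsub, hrotS', ?_⟩
        intro p q
        rw [← hS.jump p q]
        constructor
        · rintro ⟨⟨c', hc'⟩, d, hd1, hd2⟩
          have hd : (q, p, d) ∈ F \ S := by rw [← hdiff]; exact Finset.mem_sdiff.2 ⟨hd1, hd2⟩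
          obtain ⟨e, he⟩ := hF.opp _ _ _ (Finset.mem_sdiff.1 hd).1
          refine ⟨?_, d, (Finset.mem_sdiff.1 hd).1, (Finset.mem_sdiff.1 hd).2⟩
          by_cases heS : (p, q, e) ∈ S
          · exact ⟨e, heS⟩
          · exfalso
            have he' : (p, q, e) ∈ F \ S := Finset.mem_sdiff.2 ⟨he, heS⟩
            have he2 : (p, q, e) ∈ contr F v x \ S' := by rw [hdiff]; exact he'
            have := b1.uniq _ _ _ _ (hsub hc') (Finset.mem_sdiff.1 he2).1
            rw [this] at hc'
            exact (Finset.mem_sdiff.1 he2).2 hc'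
        · rintro ⟨⟨c', hc'⟩, d, hd1, hd2⟩
          have hd : (q, p, d) ∈ contr F v x \ S' := by
            rw [hdiff]; exact Finset.mem_sdiff.2 ⟨hd1, hd2⟩
          obtain ⟨e, he⟩ := b1.opp _ _ _ (Finset.mem_sdiff.1 hd).1
          refine ⟨?_, d, (Finset.mem_sdiff.1 hd).1, (Finset.mem_sdiff.1 hd).2⟩
          by_cases heS : (p, q, e) ∈ S'
          · exact ⟨e, heS⟩
          · exfalso
            have he' : (p, q, e) ∈ F \ S := by
              rw [← hdiff]; exact Finset.mem_sdiff.2 ⟨he, heS⟩
            have := hF.uniq _ _ _ _ (hS.sub hc') (Finset.mem_sdiff.1 he').1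
            rw [this] at hc'
            exact (Finset.mem_sdiff.1 he').2 hc'
      have hlt : (verts (contr F v x)).card < n := by
        rw [b2, Finset.card_erase_of_mem (verts_mono hS.sub hv)]
        have : 0 < (verts F).card := Finset.card_pos.2 ⟨v, verts_mono hS.sub hv⟩
        omega
      have hR := ih (contr F v x) a b c S' hlt hF' hSide
      rw [hdiff] at hR
      have hvS : verts S' ⊆ verts S := by
        intro w hw
        obtain ⟨p, q, hpq⟩ := mem_verts.1 hw
        rw [hS', contr, mem_quo] at hpq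
        obtain ⟨-, ⟨w', p', q'⟩, hs, hst⟩ := hpq
        simp only [mapT, Prod.mk.injEq] at hst
        by_cases hwv : w' = v
        · rw [hwv, sub1_self] at hst
          rw [← hst.1]; exact hxS
        · rw [sub1_ne hwv] at hst
          rw [← hst.1]; exact mem_verts.2 ⟨_, _, hs⟩
      have hstep : Step {v | v ∈ verts S ∧ v ≠ a ∧ v ≠ b ∧ v ≠ c} {v | v ∈ verts S} F
          (contr F v x) := ⟨v, x, ⟨hv, hva, hvb, hvc⟩, hxS, hok, rfl⟩
      have hR' : Red {v | v ∈ verts S ∧ v ≠ a ∧ v ≠ b ∧ v ≠ c} {v | v ∈ verts S} (contr F v x)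
          ((F \ S) ∪ rots (a, b, c)) := by
        refine red_mono ?_ ?_ hR
        · rintro w ⟨hw1, hw2⟩
          exact ⟨hvS hw1, hw2⟩
        · intro w hw
          exact hvS hw
      exact ReflTransGen.head hstep hR'
    · push Not at hin
      have h := ((h0.2 F a b c hF).2 S hS).2.2.2.2.2.2.2.2.2.2
      have hE := h (fun v hv => by
        by_cases h1 : v = a
        · exact Or.inl h1
        · by_cases h2 : v = b
          · exact Or.inr (Or.inl h2)
          · exact Or.inr (Or.inr (hin v hv h1 h2)))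
      rw [← hE, Finset.sdiff_union_of_subset hS.sub]
      exact ReflTransGen.refl

end Pool.Agent.H3.RCR.A11
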