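import Pool.Agent.H22.RCR.A10

/-!
# Project RCR, module A14
-/

namespace Pool.Agent.H3.RCR.A14

open Pool.Agent.H3.RCR Relation B22

/-- the number which decreases -/
def mu (f : ℕ → ℕ) (F : Finset Tri) : ℕ := F.card + (F.filter (fun t => f t.1 ≠ f t.2.1)).card

theorem nd_of_mapT {f : ℕ → ℕ} {g : ℕ → ℕ} (hfg : ∀ x, f (g x) = f x) {t : Tri}
    (h : Nd (mapT f t)) : Nd (mapT g t) := by
  obtain ⟨a, b, c⟩ := t
  simp only [Nd, mapT] at h ⊢
  refine ⟨fun e => h.1 ?_, fun e => h.2.1 ?_, fun e => h.2.2 ?_⟩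
  · rw [← hfg a, e, hfg]
  · rw [← hfg b, e, hfg]
  · rw [← hfg c, e, hfg]

theorem nd_mem {G : Finset Tri} (hG : Pre G) {t : Tri} (h : t ∈ G) : Nd t := by
  obtain ⟨a, b, c⟩ := t
  exact hG.nd h

theorem mapT_mapT {f g : ℕ → ℕ} (hfg : ∀ x, f (g x) = f x) (t : Tri) :
    mapT f (mapT g t) = mapT f t := by
  simp only [mapT, hfg]

/-- no collapsed edge: just pull back -/
theorem case0 {f : ℕ → ℕ} {F G : Finset Tri} {o O : Tri} {p : ℕ → Pt} (hF : Sph F)
    (hD : Dom f F G) (ho : o ∈ F) (hO : mapT f o = O) (hR : Real G O p)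
    (hne : ∀ a b, Adj F a b → f a ≠ f b) : Real F o (fun x => p (f x)) := by
  subst hO
  refine ⟨ho, hR.neg, ?_⟩
  rintro ⟨a, b, c⟩ ht hto
  have h1 : Nd (mapT f (a, b, c)) :=
    ⟨hne a b ⟨c, ht⟩, hne b c ⟨a, hF.rot _ _ _ ht⟩, hne c a ⟨b, hF.toPre.rot2 ht⟩⟩
  have h2 := hD.face _ ht h1
  refine hR.pos _ h2 ?_
  intro h3
  obtain ⟨x, y, z⟩ := o
  rw [mem_rots] at h3
  simp only [mapT] at h3
  apply hto
  rw [mem_rots]
  rcases h3 with h3 | h3 | h3
  · exact Or.inl (hD.uniq _ ht _ ho h2 h3)
  · exact Or.inr (Or.inl (hD.uniq _ ht (y, z, x) (hF.rot _ _ _ ho) h2 h3))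
  · exact Or.inr (Or.inr (hD.uniq _ ht (z, x, y) (hF.toPre.rot2 ho) h2 h3))

/-- contraction of a collapsed edge -/
theorem dom_contr {f : ℕ → ℕ} {F G : Finset Tri} {a b : ℕ} (h1 : A1Stmt) (hF : Sph F)
    (hG : Sph G) (hD : Dom f F G) (hok : Ok F a b) (hab : f a = f b) : Dom f (contr F a b) G := by
  have hfg : ∀ x, f (sub1 a b x) = f x := by
    intro x
    by_cases hx : x = a
    · rw [hx, sub1_self, hab]
    · rw [sub1_ne hx]
  obtain ⟨b1, b2, b3, b4, b5, b6, b7, b8⟩ := h1 F a b hF.toPre hok
  refine ⟨?_, ?_, ?_, ?_⟩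
  · intro c d hcd
    rw [b4] at hcd
    obtain ⟨-, c', d', h, hc, hd⟩ := hcd
    rw [← hc, ← hd, hfg, hfg]
    exact hD.adj _ _ h
  · intro t ht hnd
    rw [contr, mem_quo] at ht
    obtain ⟨-, s, hs, rfl⟩ := ht
    rw [mapT_mapT hfg] at hnd ⊢
    exact hD.face _ hs hnd
  · intro s hs
    obtain ⟨t, ht, hts⟩ := hD.surj s hs
    refine ⟨mapT (sub1 a b) t, ?_, by rw [mapT_mapT hfg, hts]⟩
    rw [contr, mem_quo]
    refine ⟨nd_of_mapT hfg ?_, t, ht, rfl⟩
    rw [hts]
    exact nd_mem hG.toPre hs
  · intro t ht t' ht' hm he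
    rw [contr, mem_quo] at ht ht'
    obtain ⟨-, s, hs, rfl⟩ := ht
    obtain ⟨-, s', hs', rfl⟩ := ht'
    rw [mapT_mapT hfg] at hm he
    rw [mapT_mapT hfg] at he
    rw [hD.uniq _ hs _ hs' hm he]

theorem mu_contr {f : ℕ → ℕ} {F : Finset Tri} {a b : ℕ} (h1 : A1Stmt) (hF : Sph F)
    (hok : Ok F a b) (hab : f a = f b) : mu f (contr F a b) < mu f F := by
  have hfg : ∀ x, f (sub1 a b x) = f x := by
    intro x
    by_cases hx : x = a
    · rw [hx, sub1_self, hab]
    · rw [sub1_ne hx]
  obtain ⟨b1, b2, b3, b4, b5, b6, b7, b8⟩ := h1 F a b hF.toPre hok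
  have hle : ((contr F a b).filter (fun t => f t.1 ≠ f t.2.1)).card ≤
      (F.filter (fun t => f t.1 ≠ f t.2.1)).card := by
    refine le_trans (Finset.card_le_card (t := (F.filter (fun t => f t.1 ≠ f t.2.1)).image
      (mapT (sub1 a b))) ?_) Finset.card_image_le
    intro t ht
    rw [Finset.mem_filter] at ht
    obtain ⟨ht, hne⟩ := ht
    rw [contr, mem_quo] at ht
    obtain ⟨-, s, hs, rfl⟩ := ht
    rw [Finset.mem_image]
    refine ⟨s, ?_, rfl⟩
    rw [Finset.mem_filter]
    refine ⟨hs, ?_⟩
    simp only [mapT, hfg] at hne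
    exact hne
  unfold mu
  omega

theorem a14 (h1 : A1Stmt) (h2 : A2Stmt) (h0 : A0Stmt) (h9 : A9Stmt) (h13 : A13Stmt)
    (h21 : A21Stmt) (hG7 : G7Stmt) : A14Stmt := by
  suffices H : ∀ n : ℕ, ∀ (f : ℕ → ℕ) (F G : Finset Tri) (o O : Tri) (p : ℕ → Pt) (T : Set ℕ),
      mu f F < n → Sph F → Sph G → Dom f F G → o ∈ F → mapT f o = O → Real G O p →
      Set.InjOn f T → (∀ x, isV x o → x ∈ T) →
      (∀ t ∈ T, ∃ a b, (t, a, b) ∈ F ∧ Nd (mapT f (t, a, b))) →
      ∃ p', Real F o p' ∧ ∀ t ∈ T, p' t = p (f t) by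
    intro f F G o O p T
    exact H _ f F G o O p T (Nat.lt_succ_self _)
  intro n
  induction n with
  | zero => intro f F G o O p T h; exact absurd h (Nat.not_lt_zero _)
  | succ n ih =>
    intro f F G o O p T hn hF hG hD ho hO hR hinj hoT hT
    have hn' : mu f F ≤ n := Nat.lt_succ_iff.1 hn
    by_cases hne : ∀ a b, Adj F a b → f a ≠ f b
    · exact ⟨fun x => p (f x), case0 hF hD ho hO hR hne, fun t _ => rfl⟩
    push Not at hne
    obtain ⟨a, b, hab, hfab⟩ := hne
    by_cases hc1 : ∃ a b, Ok F a b ∧ f a = f b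
    · -- Case 1: contract
      have hc2 : ∃ a b, Ok F a b ∧ f a = f b ∧ a ∉ T := by
        obtain ⟨a, b, hok, he⟩ := hc1
        by_cases haT : a ∈ T
        · refine ⟨b, a, ok_symm hF.toPre hok, he.symm, ?_⟩
          intro hbT
          exact hF.toPre.adj_ne hok.adj (hinj haT hbT he)
        · exact ⟨a, b, hok, he, haT⟩
      obtain ⟨a, b, hok, he, haT⟩ := hc2
      have hfg : ∀ x, f (sub1 a b x) = f x := by
        intro x
        by_cases hx : x = a
        · rw [hx, sub1_self, he]
        · rw [sub1_ne hx]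
      obtain ⟨b1, b2, b3, b4, b5, b6, b7, b8⟩ := h1 F a b hF.toPre hok
      have hao : ¬ isV a o := fun h => haT (hoT a h)
      obtain ⟨p', hp', hpT⟩ := ih f (contr F a b) G o O p T
        (lt_of_lt_of_le (mu_contr h1 hF hok he) hn') (h2 F a b hF hok) hG
        (dom_contr h1 hF hG hD hok he) (b6 o ho hao) hO hR hinj hoT (by
          intro t ht
          obtain ⟨x, y, hxy, hnd⟩ := hT t ht
          refine ⟨sub1 a b x, sub1 a b y, ?_, ?_⟩
          · rw [contr, mem_quo]
            have hta : t ≠ a := fun e => haT (e ▸ ht)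
            have hnd' := nd_of_mapT hfg hnd
            simp only [mapT, sub1_ne hta] at hnd'
            refine ⟨hnd', (t, x, y), hxy, ?_⟩
            simp only [mapT, sub1_ne hta]
          · simpa only [mapT, hfg] using hnd)
      obtain ⟨q, hq⟩ := hG7 F a b o p' hF hok ho hao hp'
      refine ⟨_, hq, fun t ht => ?_⟩
      rw [Function.update_of_ne (fun e => haT (by rw [← e]; exact ht)), hpT t ht]
    · -- Case 2
      push Not at hc1
      have hOG : O ∈ G := hR.mem
      have h4 : 4 ≤ (verts F).card := by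
        by_contra hlt
        push Not at hlt
        obtain ⟨x, y, z⟩ := o
        have hE := (h21 F hF).2 hlt x y z ho
        have hnd : Nd O := nd_mem hG.toPre hOG
        rw [← hO] at hnd
        obtain ⟨n1, n2, n3⟩ := hnd
        simp only [mapT] at n1 n2 n3
        obtain ⟨c, hc⟩ := hab
        rw [hE, Finset.mem_union, mem_rots, mem_rots] at hc
        simp only [Prod.mk.injEq] at hc
        rcases hc with (⟨rfl, rfl, rfl⟩ | ⟨rfl, rfl, rfl⟩ | ⟨rfl, rfl, rfl⟩) |
          (⟨rfl, rfl, rfl⟩ | ⟨rfl, rfl, rfl⟩ | ⟨rfl, rfl, rfl⟩)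
        · exact n1 hfab
        · exact n2 hfab
        · exact n3 hfab
        · exact n3 hfab.symm
        · exact n2 hfab.symm
        · exact n1 hfab.symm
      -- a totally degenerate side of a nonfacial 3-cycle
      have hex : ∃ (a b w : ℕ) (S : Finset Tri), Side3 F a b w S ∧ (a, b, w) ∉ F ∧
          ∀ t ∈ S, ¬ Nd (mapT f t) := by
        obtain ⟨w, hbw, hwa, hn1, hn2⟩ := not_ok h21 hF h4 hab (fun h => hc1 a b h hfab)
        obtain ⟨S, hS⟩ := (h0.2 F a b w hF).1 hab hbw hwa
        rcases h13 f F G S a b w hF hG hD hS hfab with h | h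
        · exact ⟨a, b, w, S, hS, hn1, h⟩
        · have hS1 := ((h0.2 F a b w hF).2 S hS).2.1
          have hS2 := ((h0.2 F a w b hF).2 _ hS1).1
          have hS3 := ((h0.2 F w b a hF).2 _ hS2).1
          exact ⟨b, a, w, F \ S, hS3, hn2, h⟩
      -- a smallest one
      have hmin : ∃ (a b w : ℕ) (S : Finset Tri), (Side3 F a b w S ∧ (a, b, w) ∉ F ∧
          ∀ t ∈ S, ¬ Nd (mapT f t)) ∧ ∀ (a' b' w' : ℕ) (S' : Finset Tri), Side3 F a' b' w' S' →
          (a', b', w') ∉ F → (∀ t ∈ S', ¬ Nd (mapT f t)) → S.card ≤ S'.card := by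
        classical
        have hP : ∃ k : ℕ, ∃ (a b w : ℕ) (S : Finset Tri), (Side3 F a b w S ∧ (a, b, w) ∉ F ∧
          ∀ t ∈ S, ¬ Nd (mapT f t)) ∧ S.card = k := by
          obtain ⟨a, b, w, S, h⟩ := hex
          exact ⟨S.card, a, b, w, S, h, rfl⟩
        obtain ⟨a, b, w, S, h, hk⟩ := Nat.find_spec hP
        refine ⟨a, b, w, S, h, ?_⟩
        intro a' b' w' S' h1 h2 h3
        rw [hk]
        exact Nat.find_min' hP ⟨a', b', w', S', ⟨h1, h2, h3⟩, rfl⟩
      obtain ⟨a, b, w, S, ⟨hS, hnf, hdeg⟩, hmin⟩ := hmin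
      obtain ⟨v, hv, hva, hvb, hvw⟩ := A10.inner h0 hF hS hnf
      have kv := ((h0.2 F a b w hF).2 S hS).2.2.2.1 v hv hva hvb hvw
      -- all faces at `v` are degenerate
      have hvdeg : ∀ p q, (v, p, q) ∈ F → ¬ Nd (mapT f (v, p, q)) :=
        fun p q h => hdeg _ (kv p q h)
      have hvT : v ∉ T := by
        intro h
        obtain ⟨x, y, hxy, hnd⟩ := hT v h
        exact hvdeg x y hxy hnd
      -- no collapsed edge at `v`
      have hncol : ∀ c, Adj F v c → f v ≠ f c := by
        intro c hc hfc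
        obtain ⟨w', hcw, hwv, hn1, hn2⟩ := not_ok h21 hF h4 hc (fun h => hc1 v c h hfc)
        obtain ⟨R, hRS, hR'⟩ := h9 F a b w S hF hS v c w' hv hva hvb hvw hc hcw hwv
        have hRd : ∀ t ∈ R, ¬ Nd (mapT f t) := fun t ht => hdeg t (hRS.1 ht)
        have hlt := Finset.card_lt_card hRS
        rcases hR' with hR' | hR'
        · have := hmin v c w' R hR' hn1 hRd
          omega
        · have := hmin v w' c R hR' (fun h => hn2 (hF.toPre.rot2 h)) hRd
          omega
      -- all neighbours have the same image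
      have hsame0 : ∀ p q, (v, p, q) ∈ F → f p = f q := by
        intro p q hpq
        by_contra hne
        apply hvdeg p q hpq
        exact ⟨hncol p ⟨q, hpq⟩, hne,
          (hncol q (hF.toPre.adj_symm ⟨p, hF.toPre.rot2 hpq⟩)).symm⟩
      obtain ⟨x0, q0, hx0⟩ := mem_verts.1 (verts_mono hS.sub hv)
      have hvx0 : Adj F v x0 := ⟨q0, hx0⟩
      have hsame : ∀ c, Adj F v c → f c = f x0 := by
        intro c hc
        have := hF.link v x0 c hvx0 hc
        induction this with
        | refl => rfl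
        | tail _ h' ih' => rw [← hsame0 _ _ h', ih' ⟨_, h'⟩]
      set y := f x0 with hy
      set f' := Function.update f v y with hf'
      have hf'v : f' v = y := by rw [hf']; exact Function.update_self _ _ _
      have hf'n : ∀ x, x ≠ v → f' x = f x := by
        intro x hx; rw [hf']; exact Function.update_of_ne hx _ _
      -- faces with and without `v`
      have hwith : ∀ t ∈ F, isV v t → mapT f' t = (y, y, y) ∧ ¬ Nd (mapT f t) := by
        rintro ⟨r, s, u⟩ ht hvt
        have haux : ∀ s u, (v, s, u) ∈ F → f' s = y ∧ f' u = y := by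
          intro s u h
          have hvs : Adj F v s := ⟨u, h⟩
          have hvu : Adj F v u := hF.toPre.adj_symm ⟨s, hF.toPre.rot2 h⟩
          rw [hf'n s (hF.toPre.adj_ne hvs).symm, hf'n u (hF.toPre.adj_ne hvu).symm,
            hsame s hvs, hsame u hvu]
          exact ⟨rfl, rfl⟩
        simp only [isV] at hvt
        rcases hvt with e | e | e
        · subst e
          have := haux s u ht
          exact ⟨by simp only [mapT, hf'v, this.1, this.2], hvdeg s u ht⟩
        · subst e
          have h' := hF.rot _ _ _ ht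
          have := haux u r h'
          refine ⟨by simp only [mapT, hf'v, this.1, this.2], fun hnd => hvdeg u r h' ?_⟩
          exact ⟨hnd.2.1, hnd.2.2, hnd.1⟩
        · subst e
          have h' := hF.toPre.rot2 ht
          have := haux r s h'
          refine ⟨by simp only [mapT, hf'v, this.1, this.2], fun hnd => hvdeg r s h' ?_⟩
          exact ⟨hnd.2.2, hnd.1, hnd.2.1⟩
      have hwithout : ∀ t : Tri, ¬ isV v t → mapT f' t = mapT f t := by
        rintro ⟨r, s, u⟩ hvt
        simp only [isV, not_or] at hvt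
        simp only [mapT, hf'n r (fun e => hvt.1 e.symm), hf'n s (fun e => hvt.2.1 e.symm),
          hf'n u (fun e => hvt.2.2 e.symm)]
      have hyyy : ¬ Nd (y, y, y) := fun h => h.1 rfl
      have hD' : Dom f' F G := by
        refine ⟨?_, ?_, ?_, ?_⟩
        · intro c d hcd
          by_cases hc : c = v
          · subst hc
            left
            rw [hf'v, hf'n d (hF.toPre.adj_ne hcd).symm, hsame d hcd]
          · by_cases hd : d = v
            · subst hd
              left
              rw [hf'v, hf'n c hc, hsame c (hF.toPre.adj_symm hcd)]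
            · rw [hf'n c hc, hf'n d hd]
              exact hD.adj c d hcd
        · intro t ht hnd
          by_cases hvt : isV v t
          · rw [(hwith t ht hvt).1] at hnd
            exact absurd hnd hyyy
          · rw [hwithout t hvt] at hnd ⊢
            exact hD.face t ht hnd
        · intro s hs
          obtain ⟨t, ht, hts⟩ := hD.surj s hs
          refine ⟨t, ht, ?_⟩
          have hvt : ¬ isV v t := by
            intro hvt
            apply (hwith t ht hvt).2
            rw [hts]; exact nd_mem hG.toPre hs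
          rw [hwithout t hvt, hts]
        · intro t ht t' ht' hm he
          have hnd := nd_mem hG.toPre hm
          have hvt : ¬ isV v t := by
            intro hvt
            rw [(hwith t ht hvt).1] at hnd
            exact hyyy hnd
          have hvt' : ¬ isV v t' := by
            intro hvt'
            rw [he, (hwith t' ht' hvt').1] at hnd
            exact hyyy hnd
          rw [hwithout t hvt] at hm he
          rw [hwithout t' hvt'] at he
          exact hD.uniq t ht t' ht' hm he
      have hvo : ¬ isV v o := fun h => hvT (hoT v h)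
      have hTne : ∀ t ∈ T, t ≠ v := fun t ht e => hvT (e ▸ ht)
      have hmu : mu f' F < mu f F := by
        unfold mu
        have hlt : (F.filter (fun t => f' t.1 ≠ f' t.2.1)).card <
            (F.filter (fun t => f t.1 ≠ f t.2.1)).card := by
          apply Finset.card_lt_card
          rw [Finset.ssubset_iff_of_subset]
          · refine ⟨(v, x0, q0), ?_, ?_⟩
            · rw [Finset.mem_filter]
              exact ⟨hx0, hncol x0 hvx0⟩
            · rw [Finset.mem_filter]
              rintro ⟨-, h⟩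
              apply h
              simp only
              rw [hf'v, hf'n x0 (hF.toPre.adj_ne hvx0).symm]
          · intro t ht
            rw [Finset.mem_filter] at ht ⊢
            refine ⟨ht.1, ?_⟩
            have hvt : ¬ isV v t := by
              intro hvt
              have h := (hwith t ht.1 hvt).1
              simp only [mapT, Prod.mk.injEq] at h
              exact ht.2 (h.1.trans h.2.1.symm)
            have h := hwithout t hvt
            simp only [mapT, Prod.mk.injEq] at h
            rw [← h.1, ← h.2.1]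
            exact ht.2
        omega
      obtain ⟨p', hp', hpT⟩ := ih f' F G o O p T (lt_of_lt_of_le hmu hn') hF hG hD' ho
        (by rw [hwithout o hvo, hO]) hR (by
          intro s hs t ht he
          rw [hf'n s (hTne s hs), hf'n t (hTne t ht)] at he
          exact hinj hs ht he) hoT (by
          intro t ht
          obtain ⟨x, z, hxz, hnd⟩ := hT t ht
          refine ⟨x, z, hxz, ?_⟩
          have hvt : ¬ isV v (t, x, z) := fun hvt => (hwith _ hxz hvt).2 hnd
          rw [hwithout _ hvt]
          exact hnd)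
      refine ⟨p', hp', fun t ht => ?_⟩
      rw [hpT t ht, hf'n t (hTne t ht)]

end Pool.Agent.H3.RCR.A14
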