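import Pool.Agent.H22.RCR.Base

/-!
# Project RCR, module A15 (Fáry's theorem)
-/

namespace Pool.Agent.H3.RCR.A15

open Pool.Agent.H3.RCR Relation B22

theorem a15 (h1 : A1Stmt) (h2 : A2Stmt) (h12 : A12Stmt) (h21 : A21Stmt) (hG7 : G7Stmt) :
    A15Stmt := by
  suffices H : ∀ n : ℕ, ∀ (F : Finset Tri) (o : Tri), (verts F).card < n → Sph F → o ∈ F →
      ∃ p, Real F o p by
    intro F o hF ho
    exact H _ F o (Nat.lt_succ_self _) hF ho
  intro n
  induction n with
  | zero => intro F o h; exact absurd h (Nat.not_lt_zero _)
  | succ n ih =>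
    intro F o hn hF ho
    by_cases h4 : 4 ≤ (verts F).card
    · -- a vertex not on `o`
      obtain ⟨a, b, c⟩ := o
      have hex : ∃ u ∈ verts F, u ∉ ({a, b, c} : Finset ℕ) := by
        by_contra hcon
        push Not at hcon
        have := Finset.card_le_card (show verts F ⊆ {a, b, c} from hcon)
        have h3 := Finset.card_le_three (a := a) (b := b) (c := c)
        omega
      obtain ⟨u, hu, hun⟩ := hex
      obtain ⟨x, hok⟩ := h12 F hF h4 u hu
      obtain ⟨b1, b2, b3, b4, b5, b6, b7, b8⟩ := h1 F u x hF.toPre hok
      have huo : ¬ isV u (a, b, c) := by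
        intro h
        apply hun
        simp only [Finset.mem_insert, Finset.mem_singleton]
        exact h
      have hlt : (verts (contr F u x)).card < n := by
        rw [b2, Finset.card_erase_of_mem hu]
        omega
      obtain ⟨p, hp⟩ := ih (contr F u x) (a, b, c) hlt (h2 F u x hF hok) (b6 _ ho huo)
      obtain ⟨q, hq⟩ := hG7 F u x (a, b, c) p hF hok ho huo hp
      exact ⟨_, hq⟩
    · push Not at h4
      obtain ⟨a, b, c⟩ := o
      have hE := (h21 F hF).2 h4 a b c ho
      obtain ⟨n1, n2, n3⟩ := hF.toPre.nd ho
      let p : ℕ → Pt := fun x => if x = a then (0, 0) else if x = b then (0, 1) else (1, 0)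
      have pa : p a = (0, 0) := by simp [p]
      have pb : p b = (0, 1) := by simp [p, n1.symm]
      have pc : p c = (1, 0) := by simp [p, n3, n2.symm]
      refine ⟨p, ho, ?_, ?_⟩
      · simp only [pa, pb, pc, orient, dt]
        norm_num
      · intro t ht hto
        rw [hE, Finset.mem_union] at ht
        rcases ht with ht | ht
        · exact absurd ht hto
        · rw [mem_rots] at ht
          simp only at ht
          rcases ht with rfl | rfl | rfl
          · simp only [pa, pb, pc, orient, dt]
            norm_num
          · simp only [pa, pb, pc, orient, dt]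
            norm_num
          · simp only [pa, pb, pc, orient, dt]
            norm_num

end Pool.Agent.H3.RCR.A15
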