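import Pool.Agent.H22.RCR.Base

/-!
# Project RCR, modules A17 and A18
-/

namespace Pool.Agent.H3.RCR.A17

open Pool.Agent.H3.RCR Relation B22

theorem step (h1 : A1Stmt) (h2 : A2Stmt) (U V : Set ℕ) (F G : Finset Tri) (hF : Sph F)
    (h : Step U V F G) :
    Sph G ∧ (∀ t ∈ F, (∀ x, isV x t → x ∉ U) → t ∈ G) ∧ verts G ⊆ verts F ∧
    (∀ x ∈ verts F, x ∉ U → x ∈ verts G) ∧
    (∀ x y, x ∉ U → x ∉ V → y ∉ U → y ∉ V → (Adj G x y ↔ Adj F x y)) := by
  obtain ⟨u, v, hu, hv, hok, rfl⟩ := h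
  obtain ⟨-, b2, -, b4, -, b6, -, -⟩ := h1 F u v hF.toPre hok
  refine ⟨h2 F u v hF hok, ?_, ?_, ?_, ?_⟩
  · intro t ht htU
    exact b6 t ht (fun h => htU u h hu)
  · rw [b2]; exact Finset.erase_subset _ _
  · intro x hx hxU
    rw [b2]
    exact Finset.mem_erase.2 ⟨fun e => hxU (e ▸ hu), hx⟩
  · intro x y hxU hxV hyU hyV
    rw [b4]
    constructor
    · rintro ⟨-, a', b', hab, ha, hb⟩
      have ea : a' = x := by
        by_cases h : a' = u
        · subst h
          rw [sub1_self] at ha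
          exact absurd (ha ▸ hv) hxV
        · rwa [sub1_ne h] at ha
      have eb : b' = y := by
        by_cases h : b' = u
        · subst h
          rw [sub1_self] at hb
          exact absurd (hb ▸ hv) hyV
        · rwa [sub1_ne h] at hb
      rw [← ea, ← eb]
      exact hab
    · intro hxy
      refine ⟨hF.toPre.adj_ne hxy, x, y, hxy, sub1_ne (fun e => hxU (e ▸ hu)),
        sub1_ne (fun e => hyU (e ▸ hu))⟩

theorem a17 (h1 : A1Stmt) (h2 : A2Stmt) : A17Stmt := by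
  intro U V F G hF h
  induction h with
  | refl => exact ⟨hF, fun t ht _ => ht, fun x hx => hx, fun x hx _ => hx, fun x y _ _ _ _ => Iff.rfl⟩
  | tail h h' ih =>
    obtain ⟨i1, i2, i3, i4, i5⟩ := ih
    obtain ⟨j1, j2, j3, j4, j5⟩ := step h1 h2 U V _ _ i1 h'
    refine ⟨j1, fun t ht htU => j2 t (i2 t ht htU) htU, fun x hx => i3 (j3 hx),
      fun x hx hxU => j4 x (i4 x hx hxU) hxU, fun x y a b c d => ?_⟩
    rw [j5 x y a b c d, i5 x y a b c d]

theorem a18 (h1 : A1Stmt) (h2 : A2Stmt) (h7 : G7Stmt) : A18Stmt := by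
  intro U V F G o p hF h
  induction h using Relation.ReflTransGen.head_induction_on with
  | refl =>
    intro ho hoU hR
    exact ⟨p, hR, fun _ _ => rfl⟩
  | head h h' ih =>
    intro ho hoU hR
    rename_i F1 F2
    obtain ⟨j1, j2, -, -, -⟩ := step h1 h2 U V _ _ hF h
    obtain ⟨p', hp', hpe⟩ := ih j1 (j2 o ho hoU) hoU hR
    obtain ⟨u, v, hu, hv, hok, rfl⟩ := h
    obtain ⟨q, hq⟩ := h7 F1 u v o p' hF hok ho (fun h => hoU u h hu) hp'
    refine ⟨_, hq, fun x hx => ?_⟩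
    rw [Function.update_of_ne (fun e => hx (by rw [e]; exact hu)), hpe x hx]

end Pool.Agent.H3.RCR.A17
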