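import Pool.Agent.H3.RCR.Stmts

/-!
# Project RCR: small facts used by the modules A10, A11, A12, A14, A15, A17, A18
-/

namespace Pool.Agent.H3.RCR.B22

open Pool.Agent.H3.RCR

theorem ok_symm {F : Finset Tri} (hF : Pre F) {u v : ℕ} (h : Ok F u v) : Ok F v u := by
  refine ⟨hF.adj_symm h.adj, ?_, ?_⟩
  · intro w h1 h2
    exact (h.apex w h2 h1).symm
  · rintro w ⟨h1, h2⟩
    exact h.dist w ⟨h2, h1⟩

/-- an edge that may not be contracted lies on a 3-cycle that is not a face -/
theorem not_ok (h21 : A21Stmt) {F : Finset Tri} (hF : Sph F) (h4 : 4 ≤ (verts F).card)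
    {u v : ℕ} (ha : Adj F u v) (h : ¬ Ok F u v) :
    ∃ w, Adj F v w ∧ Adj F w u ∧ (u, v, w) ∉ F ∧ (v, u, w) ∉ F := by
  by_contra hcon
  push Not at hcon
  refine h ⟨ha, ?_, fun w => (h21 F hF).1 h4 u v w⟩
  intro w h1 h2
  by_cases h3 : (u, v, w) ∈ F
  · exact Or.inl h3
  · exact Or.inr (hcon w h2 (hF.toPre.adj_symm h1) h3)

/-- a set with an inner vertex lives in a sphere with at least four vertices -/
theorem four {F : Finset Tri} (hF : Pre F) {a b c v : ℕ} (hab : Adj F a b) (hbc : Adj F b c)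
    (hca : Adj F c a) (hv : v ∈ verts F) (h1 : v ≠ a) (h2 : v ≠ b) (h3 : v ≠ c) :
    4 ≤ (verts F).card := by
  have hs : ({v, a, b, c} : Finset ℕ) ⊆ verts F := by
    intro x hx
    simp only [Finset.mem_insert, Finset.mem_singleton] at hx
    rcases hx with rfl | rfl | rfl | rfl
    · exact hv
    · exact Pre.mem_left hab
    · exact Pre.mem_left hbc
    · exact Pre.mem_left hca
  have hab' := hF.adj_ne hab
  have hbc' := hF.adj_ne hbc
  have hca' := hF.adj_ne hca
  have hc : ({v, a, b, c} : Finset ℕ).card = 4 := by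
    rw [Finset.card_insert_of_notMem, Finset.card_insert_of_notMem,
      Finset.card_insert_of_notMem, Finset.card_singleton]
    · simpa using hbc'
    · simp only [Finset.mem_insert, Finset.mem_singleton, not_or]
      exact ⟨hab', fun e => hca' e.symm⟩
    · simp only [Finset.mem_insert, Finset.mem_singleton, not_or]
      exact ⟨h1, h2, h3⟩
  rw [← hc]
  exact Finset.card_le_card hs

theorem verts_mono {S F : Finset Tri} (h : S ⊆ F) : verts S ⊆ verts F := by
  intro x hx
  obtain ⟨b, c, hbc⟩ := mem_verts.1 hx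
  exact mem_verts.2 ⟨b, c, h hbc⟩

theorem sub1_self (u v : ℕ) : sub1 u v u = v := by simp [sub1]

theorem sub1_ne {u v x : ℕ} (h : x ≠ u) : sub1 u v x = x := by simp [sub1, h]

end Pool.Agent.H3.RCR.B22
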